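import Pool.Agent.Helper23.TF.Gen

/-!
# The category case: a dominating family and a nonmeagre set of size `ℵ₁`
-/

open Cardinal Set Filter Topology

namespace Pool.Agent.Helper23.TF

/-- the code of the restriction of `x` to `n` -/
def cd (x : ℕ → Bool) (n : ℕ) : ℕ := Encodable.encode ((List.range n).map x)

theorem cd_eq {x y : ℕ → Bool} {n m : ℕ} (h : cd x n = cd y m) :
    n = m ∧ ∀ j < n, x j = y j := by
  unfold cd at h
  have h1 := Encodable.encode_injective h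
  have h2 : n = m := by
    have := congrArg List.length h1
    simpa using this
  refine ⟨h2, fun j hj => ?_⟩
  subst h2
  rw [List.map_inj_left] at h1
  exact h1 j (List.mem_range.mpr hj)

theorem cd_congr {x y : ℕ → Bool} {n : ℕ} (h : ∀ j < n, x j = y j) : cd x n = cd y n := by
  unfold cd
  rw [List.map_congr_left (fun j hj => h j (List.mem_range.mp hj))]

/-- the levels -/
def lv (g : ℕ → ℕ) : ℕ → ℕ
  | 0 => 0
  | k + 1 => g (lv g k) + lv g k + 1

theorem lv_mono (g : ℕ → ℕ) : StrictMono (lv g) := by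
  apply strictMono_nat_of_lt_succ
  intro k
  change lv g k < g (lv g k) + lv g k + 1
  omega

theorem lv_ge (g : ℕ → ℕ) (k : ℕ) : k ≤ lv g k := (lv_mono g).id_le k

/-- `z` guesses `x` at `k` -/
def hit (g : ℕ → ℕ) (x : ℕ → Bool) (z : ℕ → ℕ) (k : ℕ) : Prop :=
  z (cd x (lv g k)) = cd x (lv g (k + 1))

/-- the first correct guess -/
noncomputable def Fc (g z : ℕ → ℕ) (x : ℕ → Bool) : ℕ := sInf {k | hit g x z k}

theorem switch {B : Set (ℕ → Bool)} (hB0 : B.Nonempty) {h g : ℕ → ℕ}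
    (hB : ∀ x ∈ B, ∀ m, ∃ x' ∈ B, (∀ j < m, x' j = x j) ∧ ∃ j < h m, x' j ≠ x j)
    (hg : ∀ m, h m ≤ g m) (z : ℕ → ℕ) (K : ℕ) : ∃ x ∈ B, ∀ k < K, ¬ hit g x z k := by
  induction K with
  | zero =>
    obtain ⟨x, hx⟩ := hB0
    exact ⟨x, hx, fun k hk => absurd hk (Nat.not_lt_zero k)⟩
  | succ K ih =>
    obtain ⟨x, hx, hun⟩ := ih
    by_cases hK : hit g x z K
    · obtain ⟨x', hx', hag, j, hj, hne⟩ := hB x hx (lv g K)
      have hle : ∀ k ≤ K, cd x' (lv g k) = cd x (lv g k) := fun k hk =>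
        cd_congr fun i hi => hag i (hi.trans_le ((lv_mono g).monotone hk))
      refine ⟨x', hx', fun k hk => ?_⟩
      rcases Nat.lt_succ_iff_lt_or_eq.mp hk with h1 | h1
      · have h2 := hun k h1
        unfold hit at h2 ⊢
        rw [hle k h1.le, hle (k + 1) h1]
        exact h2
      · subst h1
        intro h2
        unfold hit at hK h2
        rw [hle k le_rfl, hK] at h2
        have h3 := (cd_eq h2).2 j (by
          change j < g (lv g k) + lv g k + 1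
          have := hg (lv g k)
          omega)
        exact hne h3.symm
    · refine ⟨x, hx, fun k hk => ?_⟩
      rcases Nat.lt_succ_iff_lt_or_eq.mp hk with h1 | h1
      · exact hun k h1
      · subst h1
        exact hK

/-- the guessers `z` for which some member of `B` is first guessed at or after `N` -/
def U (B : Set (ℕ → Bool)) (g : ℕ → ℕ) (N : ℕ) : Set (ℕ → ℕ) :=
  {z | ∃ x ∈ B, (∀ k < N, ¬ hit g x z k) ∧ ∃ k, hit g x z k}

theorem isClopen_hit (g : ℕ → ℕ) (x : ℕ → Bool) (k : ℕ) : IsClopen {z | hit g x z k} := by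
  have h1 : Continuous (fun z : ℕ → ℕ => z (cd x (lv g k))) := continuous_apply _
  exact (isClopen_discrete {cd x (lv g (k + 1))}).preimage h1

theorem isOpen_U (B : Set (ℕ → Bool)) (g : ℕ → ℕ) (N : ℕ) : IsOpen (U B g N) := by
  have h1 : U B g N = ⋃ x ∈ B, ((⋂ k ∈ Set.Iio N, {z | hit g x z k}ᶜ) ∩ ⋃ k, {z | hit g x z k}) := by
    ext z
    simp only [U, mem_ofPred_eq, mem_iUnion, mem_inter_iff, mem_iInter, mem_Iio, mem_compl_iff,
      exists_prop]
  rw [h1]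
  refine isOpen_biUnion fun x _ => IsOpen.inter ?_ ?_
  · exact (Set.finite_Iio N).isOpen_biInter fun k _ => (isClopen_hit g x k).compl.isOpen
  · exact isOpen_iUnion fun k => (isClopen_hit g x k).isOpen

theorem dense_U {B : Set (ℕ → Bool)} (hB0 : B.Nonempty) {h g : ℕ → ℕ}
    (hB : ∀ x ∈ B, ∀ m, ∃ x' ∈ B, (∀ j < m, x' j = x j) ∧ ∃ j < h m, x' j ≠ x j)
    (hg : ∀ m, h m ≤ g m) (N : ℕ) : Dense (U B g N) := by
  classical
  rw [dense_iff_inter_open]
  rintro V hV ⟨w, hw⟩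
  rw [isOpen_pi_iff] at hV
  obtain ⟨E, u, hu, hsub⟩ := hV w hw
  -- a level above all the lengths of the lists coded in `E`
  let len : ℕ → ℕ := fun c => ((Encodable.decode c : Option (List Bool)).elim 0 List.length)
  let K : ℕ := max N (E.sup len + 1)
  have hK : ∀ x : ℕ → Bool, cd x (lv g K) ∉ E := by
    intro x hx
    have h1 : len (cd x (lv g K)) = lv g K := by
      simp only [len, cd, Encodable.encodek, Option.elim_some, List.length_map, List.length_range]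
    have h2 : len (cd x (lv g K)) ≤ E.sup len := Finset.le_sup hx
    have h3 := lv_ge g K
    have h4 : E.sup len + 1 ≤ K := le_max_right _ _
    omega
  obtain ⟨x, hx, hun⟩ := switch hB0 hB hg w K
  refine ⟨Function.update w (cd x (lv g K)) (cd x (lv g (K + 1))), hsub ?_, x, hx, ?_, K, ?_⟩
  · intro i hi
    have h1 : i ≠ cd x (lv g K) := fun h2 => hK x (h2 ▸ hi)
    rw [Function.update_of_ne h1]
    exact (hu i hi).2
  · intro k hk
    have hkK : k < K := hk.trans_le (le_max_left _ _)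
    have h1 : cd x (lv g k) ≠ cd x (lv g K) := by
      intro h2
      have h3 := (cd_eq h2).1
      exact absurd h3 ((lv_mono g) hkK).ne
    have h2 := hun k hkK
    unfold hit at h2 ⊢
    rw [Function.update_of_ne h1]
    exact h2
  · unfold hit
    rw [Function.update_self]

theorem exists_unbounded {B : Set (ℕ → Bool)} (hB0 : B.Nonempty) {h g : ℕ → ℕ}
    (hB : ∀ x ∈ B, ∀ m, ∃ x' ∈ B, (∀ j < m, x' j = x j) ∧ ∃ j < h m, x' j ≠ x j)
    (hg : ∀ m, h m ≤ g m) {Z : Set (ℕ → ℕ)} (hZ : ¬ IsMeagre Z) :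
    ∃ z ∈ Z, ∀ N : ℕ, ∃ x ∈ B, N ≤ Fc g z x := by
  by_contra hcon
  apply hZ
  have h1 : (⋂ N, U B g N) ∈ residual (ℕ → ℕ) :=
    countable_iInter_mem.mpr fun N => residual_of_dense_open (isOpen_U B g N) (dense_U hB0 hB hg N)
  refine mem_of_superset h1 ?_
  intro z hz hzZ
  apply hcon
  refine ⟨z, hzZ, fun N => ?_⟩
  obtain ⟨x, hx, h2, k, hk⟩ := mem_iInter.mp hz N
  refine ⟨x, hx, ?_⟩
  unfold Fc
  by_contra h3
  push Not at h3
  exact h2 _ h3 (Nat.sInf_mem (s := {k | hit g x z k}) ⟨k, hk⟩)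

theorem exists_bound {B : Set (ℕ → Bool)}
    (hB : ∀ x ∈ B, ∀ m : ℕ, ∃ x' ∈ B, (∀ j < m, x' j = x j) ∧ x' ≠ x) :
    ∃ h : ℕ → ℕ, ∀ x ∈ B, ∀ m, ∃ x' ∈ B, (∀ j < m, x' j = x j) ∧ ∃ j < h m, x' j ≠ x j := by
  classical
  have h1 : ∀ m : ℕ, ∃ H : ℕ, ∀ x ∈ B, ∃ x' ∈ B, (∀ j < m, x' j = x j) ∧ ∃ j < H, x' j ≠ x j := by
    intro m
    have h2 : ∀ τ : Fin m → Bool, ∃ s : ℕ, (∃ x ∈ B, ∀ j : Fin m, x j = τ j) →
        ∃ x ∈ B, ∃ x' ∈ B, (∀ j : Fin m, x j = τ j) ∧ (∀ j : Fin m, x' j = τ j) ∧ x s ≠ x' s := by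
      intro τ
      by_cases h3 : ∃ x ∈ B, ∀ j : Fin m, x j = τ j
      · obtain ⟨x, hx, hxτ⟩ := h3
        obtain ⟨x', hx', hag, hne⟩ := hB x hx m
        obtain ⟨s, hs⟩ := Function.ne_iff.mp hne
        exact ⟨s, fun _ => ⟨x, hx, x', hx', hxτ, fun j => (hag j j.2).trans (hxτ j), hs.symm⟩⟩
      · exact ⟨0, fun h4 => absurd h4 h3⟩
    choose s hs using h2
    refine ⟨Finset.univ.sup s + 1, fun x hx => ?_⟩
    obtain ⟨y, hy, y', hy', h5, h6, h7⟩ := hs (fun j => x j) ⟨x, hx, fun _ => rfl⟩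
    have h8 : s (fun j => x j) < Finset.univ.sup s + 1 :=
      Nat.lt_succ_of_le (Finset.le_sup (f := s) (Finset.mem_univ _))
    by_cases h9 : y (s fun j => x j) = x (s fun j => x j)
    · refine ⟨y', hy', fun j hj => h6 ⟨j, hj⟩, _, h8, ?_⟩
      rw [← h9]
      exact h7.symm
    · exact ⟨y, hy, fun j hj => h5 ⟨j, hj⟩, _, h8, h9⟩
  choose h hh using h1
  exact ⟨h, fun x hx m => hh m x hx⟩

theorem exists_dii {X : Set (ℕ → Bool)} (hX : ¬ X.Countable) :
    ∃ B ⊆ X, B.Nonempty ∧ ∀ x ∈ B, ∀ m : ℕ, ∃ x' ∈ B, (∀ j < m, x' j = x j) ∧ x' ≠ x := by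
  classical
  let B : Set (ℕ → Bool) := {x ∈ X | ∀ n, ¬ {y ∈ X | ∀ j < n, y j = x j}.Countable}
  have hco : (X \ B).Countable := by
    have h1 : X \ B ⊆ ⋃ q : ℕ × ℕ, {y ∈ X | cd y q.1 = q.2 ∧
        {z ∈ X | ∀ j < q.1, z j = y j}.Countable} := by
      rintro x ⟨hx, hxB⟩
      have h2 : ∃ n, {y ∈ X | ∀ j < n, y j = x j}.Countable := by
        by_contra h3
        push Not at h3
        exact hxB ⟨hx, h3⟩
      obtain ⟨n, hn⟩ := h2
      exact mem_iUnion.mpr ⟨(n, cd x n), hx, rfl, hn⟩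
    refine Set.Countable.mono h1 (countable_iUnion fun q => ?_)
    rcases Set.eq_empty_or_nonempty {y ∈ X | cd y q.1 = q.2 ∧
        {z ∈ X | ∀ j < q.1, z j = y j}.Countable} with h3 | ⟨y, hy⟩
    · rw [h3]
      exact countable_empty
    · refine hy.2.2.mono ?_
      rintro w ⟨hw, hw2, _⟩
      exact ⟨hw, (cd_eq (hw2.trans hy.2.1.symm)).2⟩
  refine ⟨B, fun x hx => hx.1, ?_, ?_⟩
  · by_contra h1
    rw [Set.not_nonempty_iff_eq_empty] at h1
    rw [h1, Set.sdiff_empty] at hco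
    exact hX hco
  · intro x hx m
    by_contra h1
    push Not at h1
    apply hx.2 m
    refine (hco.union (countable_singleton x)).mono ?_
    rintro y ⟨hy, hag⟩
    by_cases h2 : y ∈ B
    · exact Or.inr (h1 y h2 hag)
    · exact Or.inl ⟨hy, h2⟩

open Pool.Agent.Helper86.CF

theorem cat_case {D : Set (ℕ → ℕ)} (hD : #D ≤ ℵ₁)
    (hDd : ∀ h : ℕ → ℕ, ∃ g ∈ D, ∀ᶠ n in atTop, h n ≤ g n)
    {N : Set (ℕ → ℕ)} (hN : #N ≤ ℵ₁) (hNm : ¬ IsMeagre N)
    {F : Set (Om → ℕ)} (hF : EverywhereDominating F) : 2 ^ ℵ₁ ≤ #F := by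
  have h01 : ℵ₀ ≤ ℵ₁ := aleph0_le_aleph 1
  refine gen (X := ℕ → Bool) (I := D × ℕ × N) (by simp) ?_
    (fun q x => Fc (fun k => max ((q.1 : ℕ → ℕ) k) q.2.1) q.2.2 x) ?_ hF
  · rw [mk_prod, mk_prod]
    simp only [lift_id, mk_nat]
    calc #D * (ℵ₀ * #N) ≤ ℵ₁ * (ℵ₁ * ℵ₁) := mul_le_mul' hD (mul_le_mul' h01 hN)
      _ = ℵ₁ := by rw [mul_eq_self h01, mul_eq_self h01]
  · intro f
    suffices h : {x : ℕ → Bool | ∀ q : D × ℕ × N,
        Fc (fun k => max ((q.1 : ℕ → ℕ) k) q.2.1) q.2.2 x ≤ f q}.Countable from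
      (le_aleph0_iff_set_countable.mpr h).trans h01
    by_contra hunc
    obtain ⟨B, hBX, hB0, hBd⟩ := exists_dii hunc
    obtain ⟨h, hh⟩ := exists_bound hBd
    obtain ⟨g, hg, hev⟩ := hDd h
    obtain ⟨K, hK⟩ := eventually_atTop.mp hev
    have hdom : ∀ m, h m ≤ max (g m) ((Finset.range K).sup h) := by
      intro m
      rcases le_or_gt K m with h1 | h1
      · exact (hK m h1).trans (le_max_left _ _)
      · exact (Finset.le_sup (f := h) (Finset.mem_range.mpr h1)).trans (le_max_right _ _)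
    obtain ⟨z, hz, hunb⟩ := exists_unbounded hB0 hh hdom hNm
    obtain ⟨x, hx, hle⟩ := hunb (f (⟨g, hg⟩, (Finset.range K).sup h, ⟨z, hz⟩) + 1)
    have h2 := hBX hx (⟨g, hg⟩, (Finset.range K).sup h, ⟨z, hz⟩)
    simp only at h2
    omega

end Pool.Agent.Helper23.TF
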