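import Pool.Agent.Helper86.CF.Main

/-!
# Thin families of integer valued functions exclude small everywhere-dominating families

If there are at most `ℵ₁` functions `G i : X → ω`, `#X = 2 ^ ℵ₀`, such that for every bound
`f : I → ω` at most `#K` points of `X` satisfy `G i x ≤ f i` for all `i`, then
`2 ^ ℵ₁ ≤ max (#F, cof ([K]^{≤ ℵ₁}))` for every everywhere-dominating family `F` of functions
`ω₁ → ω`.
-/

open Cardinal Set

namespace Pool.Agent.Helper23.TF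

open Pool.Agent.Helper86.CF

theorem gen_cof {X I K : Type} (hX : #X = 2 ^ ℵ₀) (hI : #I ≤ ℵ₁) (hK : ℵ₁ ≤ #K)
    (G : I → X → ℕ) (hG : ∀ f : I → ℕ, #{x : X | ∀ i, G i x ≤ f i} ≤ #K)
    {F : Set (Om → ℕ)} (hF : EverywhereDominating F) : 2 ^ ℵ₁ ≤ max #F (cofNum K) := by
  classical
  have h01 : ℵ₀ ≤ ℵ₁ := aleph0_le_aleph 1
  -- an injection of `Om × I` into `Om`
  obtain ⟨ι⟩ : Nonempty (Om × I ↪ Om) := by
    rw [← Cardinal.le_def, mk_prod, lift_id, lift_id, mk_Om]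
    calc ℵ₁ * #I ≤ ℵ₁ * ℵ₁ := mul_le_mul_right hI _
      _ = ℵ₁ := mul_eq_self h01
  let S : (Om → ℕ) → Set X := fun f => {x | ∃ j : Om, ∀ i, G i x ≤ f (ι (j, i))}
  have hS : ∀ f, #(S f) ≤ #K := by
    intro f
    have h1 : S f = ⋃ j : Om, {x : X | ∀ i, G i x ≤ f (ι (j, i))} := by
      ext x
      simp [S]
    rw [h1]
    refine (mk_iUnion_le _).trans ?_
    rw [mk_Om]
    calc ℵ₁ * ⨆ j : Om, #{x : X | ∀ i, G i x ≤ f (ι (j, i))} ≤ #K * #K := by
          apply mul_le_mul' hK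
          exact ciSup_le' (fun j => hG fun i => f (ι (j, i)))
      _ = #K := mul_eq_self (h01.trans hK)
  have hcov : ∀ Y : Set X, #Y ≤ ℵ₁ → ∃ f ∈ F, Y ⊆ S f := by
    intro Y hY
    rcases Y.eq_empty_or_nonempty with h0 | h0
    · obtain ⟨f, hf, _⟩ := hF (fun _ => 0)
      exact ⟨f, hf, by rw [h0]; exact empty_subset _⟩
    · obtain ⟨y, hy⟩ : ∃ y : Om → X, Y ⊆ range y := by
        rw [← mk_Om, Cardinal.le_def] at hY
        obtain ⟨u⟩ := hY
        have : Nonempty Y := h0.to_subtype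
        let v : Om → Y := Function.invFun u
        refine ⟨fun a => (v a : X), ?_⟩
        intro x hx
        refine ⟨u ⟨x, hx⟩, ?_⟩
        have h2 : v (u ⟨x, hx⟩) = ⟨x, hx⟩ := Function.leftInverse_invFun u.injective ⟨x, hx⟩
        simp only [h2]
      obtain ⟨f, hf, hlt⟩ := hF (Function.extend ι (fun q : Om × I => G q.2 (y q.1)) 0)
      refine ⟨f, hf, ?_⟩
      intro x hx
      obtain ⟨j, rfl⟩ := hy hx
      refine ⟨j, fun i => ?_⟩
      have h1 := hlt (ι (j, i))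
      rw [ι.injective.extend_apply] at h1
      exact h1.le
  -- a cofinal family of subsets of `X`
  obtain ⟨C, hC, hCc⟩ := cofNum_mem K
  have hj : ∀ f, Nonempty (S f ↪ K) := fun f => by
    rw [← Cardinal.le_def]
    exact hS f
  let j : ∀ f, S f ↪ K := fun f => (hj f).some
  let T : (Om → ℕ) → Set K → Set X := fun f A => {x | ∃ h : x ∈ S f, j f ⟨x, h⟩ ∈ A}
  have hT1 : ∀ f, ∀ A ∈ C, #(T f A) ≤ ℵ₁ := by
    intro f A hA
    refine le_trans ?_ (hC.1 A hA)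
    rw [Cardinal.le_def]
    refine ⟨⟨fun x => ⟨j f ⟨x, x.2.choose⟩, x.2.choose_spec⟩, ?_⟩⟩
    intro x y hxy
    have h1 := congrArg Subtype.val hxy
    have h2 := (j f).injective h1
    rw [Subtype.mk.injEq] at h2
    exact Subtype.ext h2
  have hT2 : ∀ Y : Set X, #Y ≤ ℵ₁ → ∃ f ∈ F, ∃ A ∈ C, Y ⊆ T f A := by
    intro Y hY
    obtain ⟨f, hf, hYf⟩ := hcov Y hY
    obtain ⟨A, hA, hYA⟩ := hC.2 (range fun y : Y => j f ⟨y, hYf y.2⟩) (mk_range_le.trans hY)
    exact ⟨f, hf, A, hA, fun x hx => ⟨hYf hx, hYA ⟨⟨x, hx⟩, rfl⟩⟩⟩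
  -- transfer to the Cantor set
  have hX' : #(ℕ → Bool) = #X := by
    rw [hX]
    simp
  obtain ⟨φ⟩ := Cardinal.eq.1 hX'
  have hcf : cofNum (ℕ → Bool) ≤ #F * cofNum K := by
    have hC' : CofinalFamily
        ((fun q : (Om → ℕ) × Set K => φ ⁻¹' (T q.1 q.2)) '' (F ×ˢ C)) := by
      constructor
      · rintro _ ⟨⟨f, A⟩, ⟨_, hA⟩, rfl⟩
        refine le_trans ?_ (hT1 f A hA)
        exact mk_preimage_of_injective _ _ φ.injective
      · intro Y hY
        obtain ⟨f, hf, A, hA, hYf⟩ := hT2 (φ '' Y) (mk_image_le.trans hY)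
        exact ⟨_, ⟨(f, A), ⟨hf, hA⟩, rfl⟩, fun x hx => hYf ⟨x, hx, rfl⟩⟩
    refine (cofNum_le hC').trans (mk_image_le.trans ?_)
    rw [mk_setProd, hCc]
  have hF0 : ℵ₀ ≤ #F := by
    refine le_trans ?_ (domNum_le hF)
    exact (aleph0_le_aleph 2).trans aleph_two_le
  rw [two_power_eq]
  refine max_le ((domNum_le hF).trans (le_max_left _ _)) (hcf.trans ?_)
  exact mul_le_max_of_aleph0_le_left hF0

theorem cofNum_Om : cofNum Om ≤ 1 := by
  have h : CofinalFamily ({Set.univ} : Set (Set Om)) := by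
    constructor
    · intro A hA
      rw [mem_singleton_iff.mp hA, mk_univ, mk_Om]
    · intro S _
      exact ⟨Set.univ, rfl, subset_univ S⟩
  exact (cofNum_le h).trans (mk_singleton _).le

theorem gen {X I : Type} (hX : #X = 2 ^ ℵ₀) (hI : #I ≤ ℵ₁) (G : I → X → ℕ)
    (hG : ∀ f : I → ℕ, #{x : X | ∀ i, G i x ≤ f i} ≤ ℵ₁)
    {F : Set (Om → ℕ)} (hF : EverywhereDominating F) : 2 ^ ℵ₁ ≤ #F := by
  have h := gen_cof (K := Om) hX hI mk_Om.ge G (fun f => (hG f).trans mk_Om.ge) hF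
  have hF1 : 1 ≤ #F := by
    refine le_trans ?_ (domNum_le hF)
    exact (one_le_aleph0.trans (aleph0_le_aleph 2)).trans aleph_two_le
  exact h.trans (max_le le_rfl (cofNum_Om.trans hF1))

theorem le_two_power (F : Set (Om → ℕ)) : #F ≤ 2 ^ ℵ₁ := by
  refine (mk_set_le F).trans ?_
  rw [← power_def, mk_Om, mk_nat]
  exact (power_eq_two_power (aleph0_le_aleph 1) (ofNat_le_aleph0 (n := 2)) (aleph0_le_aleph 1)).le

end Pool.Agent.Helper23.TF
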