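import Pool.Agent.Helper23.TF.Meas2

/-!
# Small everywhere-dominating families and thin families of functions on the reals

Let `F` be an everywhere-dominating family of functions `ω₁ → ω` with fewer than `2 ^ ℵ₁` members.

* `𝔟 > ℵ₁` or `non(𝒩) > ℵ₁`;
* `𝔡 > ℵ₁` or `non(ℳ) > ℵ₁`, i.e. `cof(ℳ) > ℵ₁`;
* in general, given at most `ℵ₁` functions `G i : X → ω` on a set `X` of size `2 ^ ℵ₀` and a set
  `K` with `cof ([K]^{≤ ℵ₁}, ⊆) < 2 ^ ℵ₁` (for example `#K = ℵ₁`), for some bound `f : I → ω` more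
  than `#K` points `x` of `X` satisfy `G i x ≤ f i` for all `i`.

Proof.  If all bounded sets had size at most `#K`, then the points bounded by a member of `F`,
coded with `ω₁` coordinates, would catch all sets of at most `ℵ₁` reals, so `F` would have size
`2 ^ ℵ₁` by the formula `2 ^ ℵ₁ = max (D, cof ([2 ^ ω]^{≤ ℵ₁}))`.  If `𝔟 = non(𝒩) = ℵ₁` there are
`ℵ₁` Borel functions on the Cantor set such that every infinite set is unbounded for one of them
(the last hit of a branch by a random guess of nodes, and the two Borel-Cantelli lemmas); if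
`cof(ℳ) = ℵ₁` there are `ℵ₁` Borel functions such that every nonempty set which is dense in itself
is unbounded for one of them (the first correct guess of a next node).
-/

open Cardinal Set Filter MeasureTheory

namespace Pool.Agent.Helper23.TF

open Pool.Agent.Helper86.CF

/-- The consequences of a small everywhere-dominating family. -/
theorem main (F : Set (Om → ℕ)) (hF : EverywhereDominating F) (hsmall : #F < 2 ^ ℵ₁) :
    -- `𝔟 > ℵ₁` or `non(𝒩) > ℵ₁`
    ((∀ B : Set (ℕ → ℕ), #B ≤ ℵ₁ → ∃ u : ℕ → ℕ, ∀ g ∈ B, ∀ᶠ n in atTop, g n ≤ u n) ∨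
      ∀ N : Set ℝ, #N ≤ ℵ₁ → volume N = 0) ∧
    -- `𝔡 > ℵ₁` or `non(ℳ) > ℵ₁`
    ((∀ D : Set (ℕ → ℕ), #D ≤ ℵ₁ → ∃ u : ℕ → ℕ, ∀ g ∈ D, ∃ᶠ n in atTop, g n < u n) ∨
      ∀ N : Set (ℕ → ℕ), #N ≤ ℵ₁ → IsMeagre N) ∧
    -- no thin family of at most `ℵ₁` integer valued functions on a set of size `2 ^ ℵ₀`
    ∀ (X I K : Type) (G : I → X → ℕ), #X = 2 ^ ℵ₀ → #I ≤ ℵ₁ → cofNum K < 2 ^ ℵ₁ →
      ∃ f : I → ℕ, #K < #{x : X | ∀ i, G i x ≤ f i} := by
  refine ⟨?_, ?_, ?_⟩
  · by_contra hcon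
    push Not at hcon
    obtain ⟨⟨B, hB, hBu⟩, N, hN, hN0⟩ := hcon
    refine absurd (meas_case hB (fun u => ?_) hN hN0 hF) (not_le.mpr hsmall)
    obtain ⟨g, hg, h⟩ := hBu u
    exact ⟨g, hg, h⟩
  · by_contra hcon
    push Not at hcon
    obtain ⟨⟨D, hD, hDd⟩, N, hN, hNm⟩ := hcon
    refine absurd (cat_case hD (fun u => ?_) hN hNm hF) (not_le.mpr hsmall)
    obtain ⟨g, hg, h⟩ := hDd u
    exact ⟨g, hg, h⟩
  · intro X I K G hX hI hK
    by_contra hcon
    push Not at hcon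
    rcases le_total ℵ₁ #K with h1 | h1
    · rcases le_max_iff.mp (gen_cof hX hI h1 G hcon hF) with h2 | h2
      · exact absurd h2 (not_le.mpr hsmall)
      · exact absurd hK (not_lt.mpr h2)
    · exact absurd (gen hX hI G (fun f => (hcon f).trans h1) hF) (not_le.mpr hsmall)

end Pool.Agent.Helper23.TF
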