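import Mathlib

/-!
# Independent events on the unit interval from binary digits
-/

open MeasureTheory Set ENNReal ProbabilityTheory Filter

namespace Pool.Agent.Helper23.TF

/-- the `n`-th binary digit of `p ∈ [0, 1)` is one -/
def Dg : ℕ → Set ℝ
  | 0 => Ico (1 / 2) 1
  | n + 1 => (fun p : ℝ => Int.fract (2 * p)) ⁻¹' Dg n

theorem meas_dbl : Measurable (fun p : ℝ => Int.fract (2 * p)) :=
  (measurable_const.mul measurable_id).fract

theorem meas_Dg (n : ℕ) : MeasurableSet (Dg n) := by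
  induction n with
  | zero => exact measurableSet_Ico
  | succ n ih => exact meas_dbl ih

theorem vol_left (V : Set ℝ) :
    volume ((fun p : ℝ => Int.fract (2 * p)) ⁻¹' V ∩ Ico 0 (1 / 2)) =
      2⁻¹ * volume (V ∩ Ico 0 1) := by
  have h1 : (fun p : ℝ => Int.fract (2 * p)) ⁻¹' V ∩ Ico 0 (1 / 2) =
      (fun p : ℝ => 2 * p) ⁻¹' (V ∩ Ico 0 1) := by
    ext p
    simp only [mem_inter_iff, mem_preimage, mem_Ico]
    constructor
    · rintro ⟨a, b, c⟩
      have h2 : Int.fract (2 * p) = 2 * p := by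
        rw [Int.fract_eq_self]
        constructor <;> linarith
      rw [h2] at a
      exact ⟨a, by linarith, by linarith⟩
    · rintro ⟨a, b, c⟩
      have h2 : Int.fract (2 * p) = 2 * p := by
        rw [Int.fract_eq_self]
        exact ⟨b, c⟩
      rw [h2]
      exact ⟨a, by linarith, by linarith⟩
  rw [h1, Real.volume_preimage_mul_left (by norm_num)]
  congr 1
  rw [abs_of_pos (by norm_num), ENNReal.ofReal_inv_of_pos (by norm_num)]
  norm_num

theorem vol_right (V : Set ℝ) :
    volume ((fun p : ℝ => Int.fract (2 * p)) ⁻¹' V ∩ Ico (1 / 2) 1) =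
      2⁻¹ * volume (V ∩ Ico 0 1) := by
  have h1 : (fun p : ℝ => Int.fract (2 * p)) ⁻¹' V ∩ Ico (1 / 2) 1 =
      (fun p : ℝ => 2 * p) ⁻¹' ((fun p : ℝ => p + (-1)) ⁻¹' (V ∩ Ico 0 1)) := by
    ext p
    simp only [mem_inter_iff, mem_preimage, mem_Ico]
    have h3 : (1 : ℝ) / 2 ≤ p → p < 1 → Int.fract (2 * p) = 2 * p + (-1) := by
      intro h4 h5
      rw [Int.fract_eq_iff]
      refine ⟨by linarith, by linarith, 1, ?_⟩
      push_cast
      ring
    constructor
    · rintro ⟨a, b, c⟩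
      rw [h3 b c] at a
      exact ⟨a, by linarith, by linarith⟩
    · rintro ⟨a, b, c⟩
      have h4 : (1 : ℝ) / 2 ≤ p := by linarith
      have h5 : p < 1 := by linarith
      rw [h3 h4 h5]
      exact ⟨a, h4, h5⟩
  rw [h1, Real.volume_preimage_mul_left (by norm_num), measure_preimage_add_right]
  congr 1
  rw [abs_of_pos (by norm_num), ENNReal.ofReal_inv_of_pos (by norm_num)]
  norm_num

theorem digit_prod (N : ℕ) : ∀ (s : ℕ → Prop) [DecidablePred s],
    volume ({p | ∀ n < N, s n → p ∈ Dg n} ∩ Ico 0 1) =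
      ∏ n ∈ Finset.range N, (if s n then (2⁻¹ : ℝ≥0∞) else 1) := by
  induction N with
  | zero =>
    intro s _
    simp
  | succ N ih =>
    intro s _
    rw [Finset.prod_range_succ', ← ih (fun n => s (n + 1))]
    set V : Set ℝ := {p | ∀ n < N, s (n + 1) → p ∈ Dg n} with hV
    have h1 : {p | ∀ n < N + 1, s n → p ∈ Dg n} =
        {p | s 0 → p ∈ Dg 0} ∩ (fun p : ℝ => Int.fract (2 * p)) ⁻¹' V := by
      ext p
      constructor
      · intro h
        exact ⟨h 0 (Nat.succ_pos N), fun n hn hs => h (n + 1) (by omega) hs⟩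
      · rintro ⟨h, h'⟩ n hn hs
        rcases n with _ | n
        · exact h hs
        · exact h' n (by omega) hs
    have hVm : MeasurableSet V := by
      have : V = ⋂ n ∈ {n | n < N ∧ s (n + 1)}, Dg n := by
        ext p
        simp only [hV, mem_iInter]
        exact ⟨fun h n hn => h n hn.1 hn.2, fun h n hn hs => h n ⟨hn, hs⟩⟩
      rw [this]
      exact MeasurableSet.biInter (to_countable _) fun n _ => meas_Dg n
    by_cases h0 : s 0
    · have h2 : {p | ∀ n < N + 1, s n → p ∈ Dg n} ∩ Ico 0 1 =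
          (fun p : ℝ => Int.fract (2 * p)) ⁻¹' V ∩ Ico (1 / 2) 1 := by
        rw [h1]
        ext p
        constructor
        · rintro ⟨⟨a, b⟩, c⟩
          exact ⟨b, a h0⟩
        · rintro ⟨a, b⟩
          exact ⟨⟨fun _ => b, a⟩, ⟨by linarith [b.1], b.2⟩⟩
      rw [h2, vol_right, if_pos h0, mul_comm]
    · have h2 : {p | ∀ n < N + 1, s n → p ∈ Dg n} ∩ Ico 0 1 =
          ((fun p : ℝ => Int.fract (2 * p)) ⁻¹' V ∩ Ico 0 (1 / 2)) ∪
          ((fun p : ℝ => Int.fract (2 * p)) ⁻¹' V ∩ Ico (1 / 2) 1) := by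
        rw [h1, ← inter_union_distrib_left]
        rw [Ico_union_Ico_eq_Ico (by norm_num) (by norm_num)]
        congr 1
        ext p
        constructor
        · rintro ⟨_, b⟩
          exact b
        · intro b
          exact ⟨fun h => absurd h h0, b⟩
      rw [h2, measure_union _ ((meas_dbl hVm).inter measurableSet_Ico), vol_left, vol_right,
        if_neg h0, mul_one, ← add_mul, ENNReal.inv_two_add_inv_two, one_mul]
      rw [Set.disjoint_left]
      rintro p ⟨_, a⟩ ⟨_, b⟩
      linarith [a.2, b.1]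

/-- independent events with probability `2 ^ (- (unpair m).1)` -/
def Hm (m : ℕ) : Set ℝ := {p | ∀ j < (Nat.unpair m).1, p ∈ Dg (Nat.pair m j)}

theorem meas_Hm (m : ℕ) : MeasurableSet (Hm m) := by
  have : Hm m = ⋂ j ∈ Set.Iio (Nat.unpair m).1, Dg (Nat.pair m j) := by
    ext p
    simp only [Hm, mem_iInter]
    exact Iff.rfl
  rw [this]
  exact MeasurableSet.biInter (to_countable _) fun n _ => meas_Dg _

/-- Lebesgue measure on the unit interval -/
noncomputable def nu : Measure ℝ := volume.restrict (Ico 0 1)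

instance : IsProbabilityMeasure nu := ⟨by simp [nu]⟩

theorem nu_inter (T : Finset ℕ) :
    nu (⋂ m ∈ T, Hm m) = ∏ m ∈ T, (2⁻¹ : ℝ≥0∞) ^ (Nat.unpair m).1 := by
  classical
  have hm : MeasurableSet (⋂ m ∈ T, Hm m) :=
    MeasurableSet.biInter (to_countable _) fun m _ => meas_Hm m
  unfold nu
  rw [Measure.restrict_apply hm]
  set S : Finset ℕ := (T.sigma (fun m => Finset.range (Nat.unpair m).1)).image
    (fun q => Nat.pair q.1 q.2) with hS
  have hmem : ∀ n, n ∈ S ↔ ∃ m ∈ T, ∃ j < (Nat.unpair m).1, Nat.pair m j = n := by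
    intro n
    rw [hS, Finset.mem_image]
    constructor
    · rintro ⟨⟨m, j⟩, h1, h2⟩
      rw [Finset.mem_sigma, Finset.mem_range] at h1
      exact ⟨m, h1.1, j, h1.2, h2⟩
    · rintro ⟨m, h1, j, h2, h3⟩
      exact ⟨⟨m, j⟩, Finset.mem_sigma.mpr ⟨h1, Finset.mem_range.mpr h2⟩, h3⟩
  have hcard : S.card = ∑ m ∈ T, (Nat.unpair m).1 := by
    rw [hS, Finset.card_image_of_injective, Finset.card_sigma]
    · simp
    · rintro ⟨a, b⟩ ⟨c, d⟩ h
      simp only at h
      have := Nat.pair_eq_pair.mp h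
      obtain ⟨rfl, rfl⟩ := this
      rfl
  have hset : (⋂ m ∈ T, Hm m) = {p | ∀ n < S.sup id + 1, n ∈ S → p ∈ Dg n} := by
    ext p
    simp only [mem_iInter]
    constructor
    · intro h n _ hn
      obtain ⟨m, hmT, j, hj, rfl⟩ := (hmem n).mp hn
      exact h m hmT j hj
    · intro h m hmT j hj
      have h1 : Nat.pair m j ∈ S := (hmem _).mpr ⟨m, hmT, j, hj, rfl⟩
      exact h _ (Nat.lt_succ_of_le (Finset.le_sup (f := id) h1)) h1
  rw [hset, digit_prod, Finset.prod_ite, Finset.prod_const, Finset.prod_const_one, mul_one,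
    Finset.prod_pow_eq_pow_sum, ← hcard]
  congr 2
  ext n
  rw [Finset.mem_filter, Finset.mem_range]
  exact ⟨fun h => h.2, fun hn => ⟨Nat.lt_succ_of_le (Finset.le_sup (f := id) hn), hn⟩⟩

theorem nu_Hm (m : ℕ) : nu (Hm m) = (2⁻¹ : ℝ≥0∞) ^ (Nat.unpair m).1 := by
  have := nu_inter {m}
  simpa using this

theorem indep {e : ℕ → ℕ} (he : Function.Injective e) : iIndepSet (fun n => Hm (e n)) nu := by
  classical
  rw [iIndepSet_iff_meas_biInter (fun n => meas_Hm (e n))]
  intro s
  have h1 : (⋂ i ∈ s, Hm (e i)) = ⋂ m ∈ s.image e, Hm m := by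
    ext p
    simp
  rw [h1, nu_inter, Finset.prod_image (fun a _ b _ h => he h)]
  exact Finset.prod_congr rfl fun i _ => (nu_Hm (e i)).symm

end Pool.Agent.Helper23.TF
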