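import Pool.Agent.Helper23.TF.Cat
import Pool.Agent.Helper23.TF.Meas1

/-!
# The measure case: an unbounded family and a non null set of size `ℵ₁`
-/

open Cardinal Set Filter MeasureTheory ENNReal ProbabilityTheory

namespace Pool.Agent.Helper23.TF

/-- the node of `x` at level `k` -/
def nd (g : ℕ → ℕ) (x : ℕ → Bool) (k : ℕ) : ℕ := Nat.pair k (cd x (g k))

theorem nd_level (g : ℕ → ℕ) (x : ℕ → Bool) (k : ℕ) : (Nat.unpair (nd g x k)).1 = k := by
  simp [nd]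

theorem finite_cd (n : ℕ) : (range fun x : ℕ → Bool => cd x n).Finite := by
  refine (Set.finite_range (fun τ : Fin n → Bool =>
    cd (fun j => if h : j < n then τ ⟨j, h⟩ else false) n)).subset ?_
  rintro _ ⟨x, rfl⟩
  refine ⟨fun j => x j, ?_⟩
  apply cd_congr
  intro j hj
  simp [hj]

theorem ae_finite (g : ℕ → ℕ) (x : ℕ → Bool) :
    ∀ᵐ p ∂nu, ∀ᶠ k in atTop, p ∉ Hm (nd g x k) := by
  apply ae_eventually_notMem
  have h1 : ∀ k, nu (Hm (nd g x k)) = (2⁻¹ : ℝ≥0∞) ^ k := by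
    intro k
    rw [nu_Hm, nd_level]
  simp_rw [h1]
  rw [ENNReal.tsum_geometric, ENNReal.one_sub_inv_two, inv_inv]
  exact ENNReal.ofNat_ne_top

theorem sum_large {M : Set ℕ} (h : ∀ K : ℕ, ∃ k ≥ K, ∃ T : Finset ℕ, (T : Set ℕ) ⊆ M ∧
    (∀ m ∈ T, (Nat.unpair m).1 = k) ∧ T.card = 2 ^ k) (L : ℕ) :
    ∃ T : Finset ℕ, (T : Set ℕ) ⊆ M ∧
      (L : ℝ≥0∞) ≤ ∑ m ∈ T, (2⁻¹ : ℝ≥0∞) ^ (Nat.unpair m).1 := by
  classical
  induction L with
  | zero => exact ⟨∅, by simp, by simp⟩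
  | succ L ih =>
    obtain ⟨T, hT, hs⟩ := ih
    obtain ⟨k, hk, T', hT', hlev, hcard⟩ := h (T.sup (fun m => (Nat.unpair m).1) + 1)
    have hdisj : Disjoint T T' := by
      rw [Finset.disjoint_left]
      intro m hm hm'
      have h1 : (Nat.unpair m).1 ≤ T.sup (fun m => (Nat.unpair m).1) :=
        Finset.le_sup (f := fun m => (Nat.unpair m).1) hm
      have h2 := hlev m hm'
      omega
    refine ⟨T ∪ T', ?_, ?_⟩
    · rw [Finset.coe_union]
      exact union_subset hT hT'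
    · rw [Finset.sum_union hdisj]
      have h3 : ∑ m ∈ T', (2⁻¹ : ℝ≥0∞) ^ (Nat.unpair m).1 = 1 := by
        rw [Finset.sum_congr rfl (fun m hm => by rw [hlev m hm]), Finset.sum_const, hcard,
          nsmul_eq_mul]
        push_cast
        rw [← mul_pow, ENNReal.mul_inv_cancel (by norm_num) (by norm_num), one_pow]
      rw [h3]
      push_cast
      exact add_le_add hs le_rfl

theorem ae_large {M : Set ℕ} (h : ∀ K : ℕ, ∃ k ≥ K, ∃ T : Finset ℕ, (T : Set ℕ) ⊆ M ∧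
    (∀ m ∈ T, (Nat.unpair m).1 = k) ∧ T.card = 2 ^ k)
    (hfin : ∀ B : ℕ, {m ∈ M | (Nat.unpair m).1 ≤ B}.Finite) :
    ∀ᵐ p ∂nu, ∀ B : ℕ, ∃ m ∈ M, B < (Nat.unpair m).1 ∧ p ∈ Hm m := by
  classical
  have hinf : M.Infinite := by
    intro hM
    obtain ⟨k, hk, T, hT, hlev, hcard⟩ :=
      h (hM.toFinset.sup (fun m => (Nat.unpair m).1) + 1)
    have hne : T.Nonempty := by
      rw [← Finset.card_pos, hcard]
      positivity
    obtain ⟨m, hm⟩ := hne
    have h1 : (Nat.unpair m).1 ≤ hM.toFinset.sup (fun m => (Nat.unpair m).1) :=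
      Finset.le_sup (f := fun m => (Nat.unpair m).1) (hM.mem_toFinset.mpr (hT hm))
    have h2 := hlev m hm
    omega
  have : Infinite M := hinf.to_subtype
  obtain ⟨e, he, hrange⟩ : ∃ e : ℕ → ℕ, Function.Injective e ∧ range e = M := by
    refine ⟨fun n => (Nat.Subtype.orderIsoOfNat M n : ℕ), ?_, ?_⟩
    · exact Subtype.val_injective.comp (Nat.Subtype.orderIsoOfNat M).injective
    · ext m
      constructor
      · rintro ⟨n, rfl⟩
        exact (Nat.Subtype.orderIsoOfNat M n).2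
      · intro hm
        obtain ⟨n, hn⟩ := (Nat.Subtype.orderIsoOfNat M).surjective ⟨m, hm⟩
        exact ⟨n, by simp only [hn]⟩
  have htop : ∑' n, nu (Hm (e n)) = ∞ := by
    by_contra hne
    obtain ⟨L, hL⟩ := ENNReal.exists_nat_gt hne
    obtain ⟨T, hT, hs⟩ := sum_large h L
    have h1 : ∑ m ∈ T, (2⁻¹ : ℝ≥0∞) ^ (Nat.unpair m).1 ≤ ∑' n, nu (Hm (e n)) := by
      have h2 : ∑ n ∈ T.preimage e he.injOn, nu (Hm (e n)) = ∑ m ∈ T, nu (Hm m) := by
        apply Finset.sum_preimage e T he.injOn (fun m => nu (Hm m))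
        intro m hm hm'
        rw [hrange] at hm'
        exact absurd (hT hm) hm'
      rw [Finset.sum_congr rfl (fun m _ => (nu_Hm m).symm), ← h2]
      exact ENNReal.sum_le_tsum _
    exact absurd (hs.trans h1) (not_le.mpr hL)
  have h1 := measure_limsup_eq_one (fun n => meas_Hm (e n)) (indep he) htop
  have h2 : ∀ᵐ p ∂nu, p ∈ limsup (fun n => Hm (e n)) atTop := by
    rw [← mem_ae_iff_prob_eq_one (MeasurableSet.measurableSet_limsup fun n => meas_Hm (e n))] at h1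
    exact h1
  filter_upwards [h2] with p hp B
  rw [mem_limsup_iff_frequently_mem] at hp
  have h3 : ∀ᶠ n in atTop, B < (Nat.unpair (e n)).1 := by
    rw [← Nat.cofinite_eq_atTop]
    have h4 : {n | ¬ B < (Nat.unpair (e n)).1} ⊆ e ⁻¹' {m ∈ M | (Nat.unpair m).1 ≤ B} := by
      intro n hn
      exact ⟨hrange ▸ mem_range_self n, not_lt.mp hn⟩
    exact ((hfin B).preimage he.injOn).subset h4
  obtain ⟨n, hn1, hn2⟩ := (hp.and_eventually h3).exists
  exact ⟨e n, hrange ▸ mem_range_self n, hn2, hn1⟩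

theorem good (a : ℕ → ℕ → Bool) (g : ℕ → ℕ)
    (hg : ∃ᶠ k in atTop, ∀ i < 2 ^ k, ∀ j < 2 ^ k, i ≠ j → ∃ d < g k, a i d ≠ a j d) :
    ∀ᵐ p ∂nu, (∀ i, ∀ᶠ k in atTop, p ∉ Hm (nd g (a i) k)) ∧
      ∀ B : ℕ, ∃ i, ∃ k > B, p ∈ Hm (nd g (a i) k) := by
  classical
  have h1 : ∀ᵐ p ∂nu, ∀ i, ∀ᶠ k in atTop, p ∉ Hm (nd g (a i) k) :=
    ae_all_iff.mpr fun i => ae_finite g (a i)
  let M : Set ℕ := {m | ∃ i k, m = nd g (a i) k}
  have h2 : ∀ᵐ p ∂nu, ∀ B : ℕ, ∃ m ∈ M, B < (Nat.unpair m).1 ∧ p ∈ Hm m := by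
    apply ae_large
    · intro K
      obtain ⟨k, hk, hd⟩ := (frequently_atTop.mp hg) K
      refine ⟨k, hk, (Finset.range (2 ^ k)).image (fun i => nd g (a i) k), ?_, ?_, ?_⟩
      · intro m hm
        rw [Finset.mem_coe, Finset.mem_image] at hm
        obtain ⟨i, _, rfl⟩ := hm
        exact ⟨i, k, rfl⟩
      · intro m hm
        rw [Finset.mem_image] at hm
        obtain ⟨i, _, rfl⟩ := hm
        exact nd_level _ _ _
      · rw [Finset.card_image_of_injOn, Finset.card_range]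
        intro i hi j hj hij
        rw [Finset.mem_coe, Finset.mem_range] at hi hj
        by_contra hne
        obtain ⟨d, hdg, hda⟩ := hd i hi j hj hne
        have h3 : cd (a i) (g k) = cd (a j) (g k) := (Nat.pair_eq_pair.mp hij).2
        exact hda ((cd_eq h3).2 d hdg)
    · intro B
      have h4 : {m ∈ M | (Nat.unpair m).1 ≤ B} ⊆
          ⋃ k ∈ Set.Iic B, (fun c => Nat.pair k c) '' (range fun x : ℕ → Bool => cd x (g k)) := by
        rintro m ⟨⟨i, k, rfl⟩, hm⟩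
        rw [nd_level] at hm
        rw [mem_iUnion₂]
        exact ⟨k, hm, cd (a i) (g k), ⟨a i, rfl⟩, rfl⟩
      exact ((Set.finite_Iic B).biUnion fun k _ => (finite_cd (g k)).image _).subset h4
  filter_upwards [h1, h2] with p hp1 hp2
  refine ⟨hp1, fun B => ?_⟩
  obtain ⟨m, ⟨i, k, rfl⟩, hB, hm⟩ := hp2 B
  rw [nd_level] at hB
  exact ⟨i, k, hB, hm⟩

theorem exists_fract {N : Set ℝ} (hN : volume N ≠ 0) {P : ℝ → Prop} (hP : ∀ᵐ p ∂nu, P p) :
    ∃ p ∈ N, P (Int.fract p) := by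
  by_contra hcon
  push Not at hcon
  apply hN
  have h1 : volume ({p | ¬ P p} ∩ Ico 0 1) = 0 := by
    have h2 : nu {p | ¬ P p} = 0 := hP
    unfold nu at h2
    rwa [Measure.restrict_apply' measurableSet_Ico] at h2
  have h3 : N ⊆ ⋃ z : ℤ, (fun p : ℝ => p + (-(z : ℝ))) ⁻¹' ({p | ¬ P p} ∩ Ico 0 1) := by
    intro p hp
    rw [mem_iUnion]
    refine ⟨⌊p⌋, ?_⟩
    have h4 : p + (-(⌊p⌋ : ℝ)) = Int.fract p := by
      rw [← sub_eq_add_neg]
      rfl
    rw [mem_preimage, h4]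
    exact ⟨hcon p hp, Int.fract_nonneg p, Int.fract_lt_one p⟩
  refine measure_mono_null h3 (measure_iUnion_null fun z => ?_)
  rw [measure_preimage_add_right]
  exact h1

/-- the last level at which `p` hits the branch `x` -/
noncomputable def Fm (g : ℕ → ℕ) (p : ℝ) (x : ℕ → Bool) : ℕ :=
  sSup {k | Int.fract p ∈ Hm (nd g x k)}

open Pool.Agent.Helper86.CF

theorem meas_case {D : Set (ℕ → ℕ)} (hD : #D ≤ ℵ₁)
    (hDu : ∀ h : ℕ → ℕ, ∃ g ∈ D, ∃ᶠ n in atTop, h n < g n)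
    {N : Set ℝ} (hN : #N ≤ ℵ₁) (hN0 : volume N ≠ 0)
    {F : Set (Om → ℕ)} (hF : EverywhereDominating F) : 2 ^ ℵ₁ ≤ #F := by
  classical
  have h01 : ℵ₀ ≤ ℵ₁ := aleph0_le_aleph 1
  refine gen (X := ℕ → Bool) (I := D × N) (by simp) ?_
    (fun q x => Fm q.1 q.2 x) ?_ hF
  · rw [mk_prod]
    simp only [lift_id]
    calc #D * #N ≤ ℵ₁ * ℵ₁ := mul_le_mul' hD hN
      _ = ℵ₁ := mul_eq_self h01
  · intro f
    suffices h : {x : ℕ → Bool | ∀ q : D × N, Fm q.1 q.2 x ≤ f q}.Countable from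
      (le_aleph0_iff_set_countable.mpr h).trans h01
    apply Set.Finite.countable
    by_contra hinf
    have hinf' : {x : ℕ → Bool | ∀ q : D × N, Fm q.1 q.2 x ≤ f q}.Infinite := hinf
    let a' := hinf'.natEmbedding
    let a : ℕ → ℕ → Bool := fun i => a' i
    have ha : ∀ i j, i ≠ j → ∃ d, a i d ≠ a j d := by
      intro i j hij
      apply Function.ne_iff.mp
      intro h
      exact hij (a'.injective (Subtype.ext h))
    have hex : ∀ k : ℕ, ∃ H : ℕ, ∀ i < 2 ^ k, ∀ j < 2 ^ k, i ≠ j → ∃ d < H, a i d ≠ a j d := by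
      intro k
      choose! d hd using ha
      refine ⟨(Finset.range (2 ^ k) ×ˢ Finset.range (2 ^ k)).sup (fun q => d q.1 q.2) + 1,
        fun i hi j hj hij => ⟨d i j, ?_, hd i j hij⟩⟩
      apply Nat.lt_succ_of_le
      exact Finset.le_sup (f := fun q : ℕ × ℕ => d q.1 q.2) (b := (i, j))
        (Finset.mem_product.mpr ⟨Finset.mem_range.mpr hi, Finset.mem_range.mpr hj⟩)
    choose h hh using hex
    obtain ⟨g, hg, hfr⟩ := hDu h
    have hfr' : ∃ᶠ k in atTop, ∀ i < 2 ^ k, ∀ j < 2 ^ k, i ≠ j → ∃ d < g k, a i d ≠ a j d := by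
      refine hfr.mono fun k hk i hi j hj hij => ?_
      obtain ⟨d, hd, hne⟩ := hh k i hi j hj hij
      exact ⟨d, hd.trans hk, hne⟩
    obtain ⟨p, hp, hp1, hp2⟩ := exists_fract hN0 (good a g hfr')
    obtain ⟨i, k, hk, hhit⟩ := hp2 (f (⟨g, hg⟩, ⟨p, hp⟩))
    have hbd : BddAbove {k | Int.fract p ∈ Hm (nd g (a i) k)} := by
      obtain ⟨K, hK⟩ := eventually_atTop.mp (hp1 i)
      refine ⟨K, fun k hk => ?_⟩
      by_contra hlt
      exact hK k (not_le.mp hlt).le hk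
    have h1 : k ≤ Fm g p (a i) := le_csSup hbd hhit
    have h2 : Fm g p (a i) ≤ f (⟨g, hg⟩, ⟨p, hp⟩) := (a' i).2 (⟨g, hg⟩, ⟨p, hp⟩)
    omega

end Pool.Agent.Helper23.TF
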